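import Pool.Agent.W153.EO.Sep
import Pool.Agent.W153.EO.Count
import Pool.Agent.H430R3.KST

set_option autoImplicit false

/-!
# Edge-ordered graphs without the seven-vertex path: dense graphs and graphs beyond every power of the logarithm

The pattern `pat` with the ranks `lab` is the edge-ordered path of `Pool.Agent.W153.EO`.
-/

namespace Pool.Agent.J6H34.EOForest

open Filter Topology Finset
open Pool.Agent.W153.EO

/-- Numerical estimate: the number of incidences beats `n (log n) ^ c`. -/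
lemma estimate (C : ℝ) (c b : ℕ) (hb : 1 ≤ b)
    (hlarge : 4 * |C| * (5 * (b : ℝ) ^ 2) ^ c < 2 ^ b) (n : ℕ)
    (hn : n = 2 ^ b * (b * 2 ^ b + 2 ^ b) ^ b + (2 * (b * 2 ^ b)) ^ b) :
    C * (n : ℝ) * Real.log (n : ℝ) ^ c < (((2 * (b * 2 ^ b)) ^ b * 2 ^ b : ℕ) : ℝ) := by
  have hb' : (0 : ℝ) < b := by exact_mod_cast hb
  have hb1 : (1 : ℝ) ≤ b := by exact_mod_cast hb
  set X : ℝ := ((b : ℝ) * 2 ^ b) ^ b with hX
  have hXpos : 0 < X := by positivity
  have h2b : (1 : ℝ) ≤ 2 ^ b := one_le_pow₀ (by norm_num)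
  have hnX : (n : ℝ) ≤ 4 * 2 ^ b * X := by
    rw [hn]
    push_cast
    have e1 : ((b : ℝ) * 2 ^ b + 2 ^ b) ^ b = (2 ^ b) ^ b * ((b : ℝ) + 1) ^ b := by
      rw [← mul_pow]
      congr 1
      ring
    have e2 : (2 * ((b : ℝ) * 2 ^ b)) ^ b = 2 ^ b * X := by
      rw [mul_pow, hX]
    rw [e1, e2]
    have e3 : (2 ^ b) ^ b * ((b : ℝ) + 1) ^ b ≤ 3 * X := by
      calc ((2 : ℝ) ^ b) ^ b * ((b : ℝ) + 1) ^ b ≤ (2 ^ b) ^ b * (3 * (b : ℝ) ^ b) :=
            mul_le_mul_of_nonneg_left (pow_ratio b hb) (by positivity)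
        _ = 3 * X := by
            rw [hX, mul_pow]
            ring
    calc (2 : ℝ) ^ b * ((2 ^ b) ^ b * ((b : ℝ) + 1) ^ b) + 2 ^ b * X
        ≤ 2 ^ b * (3 * X) + 2 ^ b * X := by
          have := mul_le_mul_of_nonneg_left e3 (by positivity : (0 : ℝ) ≤ 2 ^ b)
          linarith
      _ = 4 * 2 ^ b * X := by ring
  have hnpos : 0 < n := by
    rw [hn]
    have : 0 < (2 * (b * 2 ^ b)) ^ b := by positivity
    omega
  have hn1 : (1 : ℝ) ≤ n := by exact_mod_cast hnpos
  have hlog0 : 0 ≤ Real.log n := Real.log_nonneg hn1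
  have hlog2 : Real.log 2 ≤ 1 := by
    have := Real.log_two_lt_d9
    linarith
  have hlog : Real.log n ≤ 5 * (b : ℝ) ^ 2 := by
    calc Real.log n ≤ Real.log (4 * 2 ^ b * X) := Real.log_le_log (by linarith) hnX
      _ = 2 * Real.log 2 + b * Real.log 2 + b * (Real.log b + b * Real.log 2) := by
          rw [Real.log_mul (by positivity) (by positivity), Real.log_mul (by positivity) (by positivity),
            Real.log_pow, hX, Real.log_pow, Real.log_mul (by positivity) (by positivity), Real.log_pow,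
            show (4 : ℝ) = 2 ^ 2 by norm_num, Real.log_pow]
          push_cast
          ring
      _ ≤ 2 * 1 + b * 1 + b * (b + b * 1) := by
          have h1 := log_nat_le b hb
          have h2 : (b : ℝ) * Real.log 2 ≤ b * 1 := mul_le_mul_of_nonneg_left hlog2 hb'.le
          have h3 : (b : ℝ) * (Real.log b + b * Real.log 2) ≤ b * (b + b * 1) :=
            mul_le_mul_of_nonneg_left (by linarith) hb'.le
          linarith
      _ ≤ 5 * (b : ℝ) ^ 2 := by nlinarith
  have hlogc : Real.log n ^ c ≤ (5 * (b : ℝ) ^ 2) ^ c := pow_le_pow_left₀ hlog0 hlog c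
  have hlogc0 : 0 ≤ Real.log n ^ c := pow_nonneg hlog0 c
  have hE : (((2 * (b * 2 ^ b)) ^ b * 2 ^ b : ℕ) : ℝ) = 2 ^ b * (2 ^ b * X) := by
    push_cast
    rw [mul_pow, hX]
    ring
  rw [hE]
  calc C * (n : ℝ) * Real.log n ^ c ≤ |C| * n * Real.log n ^ c := by
        apply mul_le_mul_of_nonneg_right _ hlogc0
        exact mul_le_mul_of_nonneg_right (le_abs_self C) (by positivity)
    _ ≤ |C| * (4 * 2 ^ b * X) * (5 * (b : ℝ) ^ 2) ^ c := by
        apply mul_le_mul _ hlogc hlogc0 (by positivity)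
        exact mul_le_mul_of_nonneg_left hnX (abs_nonneg C)
    _ = (4 * |C| * (5 * (b : ℝ) ^ 2) ^ c) * (2 ^ b * X) := by ring
    _ < 2 ^ b * (2 ^ b * X) := by
        apply mul_lt_mul_of_pos_right hlarge (by positivity)

lemma exists_b (C : ℝ) (c : ℕ) : ∃ b : ℕ, 2 ≤ b ∧ 4 * |C| * (5 * (b : ℝ) ^ 2) ^ c < 2 ^ b := by
  have h1 : Tendsto (fun b : ℕ => (b : ℝ) ^ (2 * c) / 2 ^ b) atTop (𝓝 0) :=
    tendsto_pow_const_div_const_pow_of_one_lt (2 * c) (by norm_num)
  have h2 := h1.const_mul (4 * |C| * 5 ^ c)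
  rw [mul_zero] at h2
  have h3 : ∀ᶠ b : ℕ in atTop, 4 * |C| * 5 ^ c * ((b : ℝ) ^ (2 * c) / 2 ^ b) < 1 :=
    h2.eventually_lt_const (by norm_num)
  obtain ⟨b, hb⟩ := (h3.and (eventually_ge_atTop 2)).exists
  refine ⟨b, hb.2, ?_⟩
  have h4 := hb.1
  rw [← mul_div_assoc, div_lt_one (by positivity)] at h4
  rw [mul_pow, ← pow_mul]
  linarith

/-- Graphs without the pattern with more than `C n (log n) ^ c` edges. -/
theorem lower_pow (C : ℝ) (c : ℕ) : ∃ n : ℕ, 2 ≤ n ∧ ∃ G : SimpleGraph (Fin n), ∃ g : Sym2 (Fin n) → ℕ,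
    Set.InjOn g G.edgeSet ∧ ¬ Cont G g ∧
      C * (n : ℝ) * Real.log (n : ℝ) ^ c < (G.edgeSet.ncard : ℝ) := by
  obtain ⟨b, hb2, hb⟩ := exists_b C c
  have hb1 : 1 ≤ b := by omega
  obtain ⟨G, g, hg, hC, hcard⟩ := transport (host b (2 ^ b) (b * 2 ^ b)) (ord b (2 ^ b) (b * 2 ^ b))
    (ord_injOn _ _ _) (host_avoids _ _ _)
  have hn := host_card b (2 ^ b) (b * 2 ^ b)
  refine ⟨_, ?_, G, g, hg, hC, ?_⟩
  · rw [hn]
    have h1 : b < 2 ^ b := Nat.lt_two_pow_self
    have h2 : 2 ^ b ≤ (2 * (b * 2 ^ b)) ^ b := by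
      apply Nat.pow_le_pow_left
      have : 1 ≤ b * 2 ^ b := Nat.one_le_iff_ne_zero.mpr (by positivity)
      omega
    omega
  · refine lt_of_lt_of_le (estimate C c b hb1 hb _ hn) ?_
    rw [hcard]
    exact_mod_cast host_edges b (2 ^ b) (b * 2 ^ b)

/-- Twice the number of edges is the sum of the degrees, for the edge count by `ncard`. -/
lemma two_mul_ncard {n : ℕ} (G : SimpleGraph (Fin n)) [DecidableRel G.Adj] :
    ∑ x : Fin n, (univ.filter fun y => G.Adj x y).card = 2 * G.edgeSet.ncard := by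
  classical
  have h1 := G.sum_degrees_eq_twice_card_edges
  have h2 : G.edgeSet.ncard = G.edgeFinset.card := by
    rw [← SimpleGraph.coe_edgeFinset, Set.ncard_coe_finset]
  rw [h2, ← h1]
  apply sum_congr rfl
  intro x _
  rw [← SimpleGraph.card_neighborFinset_eq_degree]
  congr 1
  ext y
  simp

/-- Dense edge-ordered graphs contain the pattern. -/
theorem upper (ε : ℝ) (hε : 0 < ε) : ∃ N : ℕ, ∀ n : ℕ, N ≤ n →
    ∀ (G : SimpleGraph (Fin n)) (M : Sym2 (Fin n) → ℕ), Set.InjOn M G.edgeSet →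
      ¬ Cont G M → (G.edgeSet.ncard : ℝ) ≤ ε * (n : ℝ) ^ 2 := by
  classical
  obtain ⟨A, B, hAB⟩ := exists_host
  obtain ⟨q, hq⟩ := exists_nat_gt (1 / (2 * ε))
  have hq0 : (0 : ℝ) < q := lt_trans (by positivity) hq
  have hq1 : 1 ≤ q := by exact_mod_cast hq0
  obtain ⟨R0, hR0⟩ := H430R3.weak_kst (A + B + 1) q (by omega) hq1
  refine ⟨R0 + 1, ?_⟩
  intro n hn G M hM hcont
  by_contra hlt
  rw [not_le] at hlt
  apply hcont
  have hdeg : n * n < q * ∑ x ∈ (univ : Finset (Fin n)), ((univ : Finset (Fin n)).filter fun y => G.Adj x y).card := by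
    rw [two_mul_ncard G]
    have h1 : 1 < 2 * ε * q := by
      rw [div_lt_iff₀ (by positivity)] at hq
      linarith
    have h2 : (0 : ℝ) < (n : ℝ) ^ 2 := by
      have : (0 : ℝ) < n := by exact_mod_cast (by omega : 0 < n)
      positivity
    have h3 : (n : ℝ) * n < q * (2 * G.edgeSet.ncard) := by
      calc (n : ℝ) * n = 1 * (n : ℝ) ^ 2 := by ring
        _ < (2 * ε * q) * (n : ℝ) ^ 2 := mul_lt_mul_of_pos_right h1 h2
        _ = q * (2 * (ε * (n : ℝ) ^ 2)) := by ring
        _ ≤ q * (2 * G.edgeSet.ncard) := by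
            apply mul_le_mul_of_nonneg_left _ hq0.le
            linarith
    exact_mod_cast h3
  obtain ⟨X, -, Y, -, hX, hY, hXY⟩ := hR0 (univ : Finset (Fin n)) (univ : Finset (Fin n)) G.Adj n
    (by omega) (by simp) (by simp) hdeg
  -- the embedding of the complete bipartite graph
  let fX : Fin A → Fin n := fun i => X.orderEmbOfFin hX ⟨i, by omega⟩
  let fY : Fin B → Fin n := fun i => Y.orderEmbOfFin hY ⟨i, by omega⟩
  have hfX : ∀ i, fX i ∈ X := fun i => X.orderEmbOfFin_mem hX _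
  have hfY : ∀ i, fY i ∈ Y := fun i => Y.orderEmbOfFin_mem hY _
  have hadj : ∀ i j, G.Adj (fX i) (fY j) := fun i j => hXY _ (hfX i) _ (hfY j)
  let ψ : Fin A ⊕ Fin B → Fin n := Sum.elim fX fY
  have hψ : Function.Injective ψ := by
    rintro (i | i) (j | j) h
    · simp only [ψ, Sum.elim_inl, fX] at h
      have := (X.orderEmbOfFin hX).injective h
      simp only [Fin.mk.injEq] at this
      rw [Fin.ext this]
    · exfalso
      have := hadj i j
      simp only [ψ, Sum.elim_inl, Sum.elim_inr] at h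
      rw [h] at this
      exact G.loopless.irrefl _ this
    · exfalso
      have := hadj j i
      simp only [ψ, Sum.elim_inl, Sum.elim_inr] at h
      rw [h] at this
      exact G.loopless.irrefl _ this
    · simp only [ψ, Sum.elim_inr, fY] at h
      have := (Y.orderEmbOfFin hY).injective h
      simp only [Fin.mk.injEq] at this
      rw [Fin.ext this]
  have hψadj : ∀ u v, (completeBipartiteGraph (Fin A) (Fin B)).Adj u v → G.Adj (ψ u) (ψ v) := by
    rintro (i | i) (j | j) h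
    · simp at h
    · exact hadj i j
    · exact (hadj j i).symm
    · simp at h
  have hinj : Set.InjOn (fun x => M (x.map ψ)) (completeBipartiteGraph (Fin A) (Fin B)).edgeSet := by
    intro x hx y hy hxy
    have hx' : x.map ψ ∈ G.edgeSet := by
      induction x using Sym2.ind with
      | _ a b => exact hψadj _ _ hx
    have hy' : y.map ψ ∈ G.edgeSet := by
      induction y using Sym2.ind with
      | _ a b => exact hψadj _ _ hy
    exact Sym2.map.injective hψ (hM hx' hy' hxy)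
  obtain ⟨φ, h1, h2, h3⟩ := hAB _ hinj
  refine ⟨ψ ∘ φ, hψ.comp h1, fun u v huv => hψadj _ _ (h2 u v huv), ?_⟩
  intro e₁ he₁ e₂ he₂ hlt
  have := h3 e₁ he₁ e₂ he₂ hlt
  simpa only [Sym2.map_map] using this

end Pool.Agent.J6H34.EOForest
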